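import Pool.Agent.Helper41.LD4.Defs
import Pool.Agent.Helper5.LD.GA

/-!
# Project LD4, block SYb2: orthogonality and kernel of the transfer operator
-/

set_option autoImplicit false

namespace Pool.Agent.Helper81.LD4

open Set MeasureTheory
open Pool.Agent.Helper41.LD4
open Pool.Agent.Helper41.LD (haar)

/-- the first digit (base `B`) is independent of the rest -/
theorem digit {B : ℕ} (hB : 1 ≤ B) (F : ℕ → ℝ) {g : ℝ → ℝ} (hg : Measurable g) {C : ℝ} (hg1 : ∀ x, |g x| ≤ C)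
    (hgp : Function.Periodic g 1) :
    ∫ x in (0 : ℝ)..1, F ⌊(B : ℝ) * Int.fract x⌋₊ * g (B * x) =
      (∑ a ∈ Finset.range B, F a) / B * ∫ x in (0 : ℝ)..1, g x := by
  have hB0 : (0 : ℝ) < B := by exact_mod_cast hB
  have hint : ∀ (c d : ℝ), IntervalIntegrable (fun x => g (B * x)) volume c d := by
    intro c d
    rw [intervalIntegrable_iff]
    refine Measure.integrableOn_of_bounded (M := C) (by simp) ?_ ?_
    · exact (hg.comp (measurable_const_mul _)).aestronglyMeasurable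
    · exact Filter.Eventually.of_forall fun x => by simpa using hg1 (B * x)
  have hpiece : ∀ a < B, ∀ x ∈ Ioo ((a : ℝ) / B) (((a + 1 : ℕ) : ℝ) / B),
      F ⌊(B : ℝ) * Int.fract x⌋₊ * g (B * x) = F a * g (B * x) := by
    intro a ha x hx
    have h1 : (a : ℝ) < B * x := by
      have := hx.1
      rw [div_lt_iff₀ hB0] at this
      linarith
    have h2 : (B : ℝ) * x < a + 1 := by
      have := hx.2
      rw [lt_div_iff₀ hB0] at this
      push_cast at this
      linarith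
    have h3 : (a : ℝ) + 1 ≤ B := by exact_mod_cast ha
    have h4 : Int.fract x = x := by
      rw [Int.fract_eq_self]
      constructor
      · have : (0 : ℝ) ≤ a := Nat.cast_nonneg a
        by_contra h
        push Not at h
        nlinarith
      · by_contra h
        push Not at h
        nlinarith
    rw [h4]
    congr 2
    rw [Nat.floor_eq_iff (by have : (0 : ℝ) ≤ a := Nat.cast_nonneg a; linarith)]
    exact ⟨h1.le, h2⟩
  have hle : ∀ a : ℕ, (a : ℝ) / B ≤ ((a + 1 : ℕ) : ℝ) / B := by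
    intro a
    push_cast
    gcongr
    linarith
  have hsum := intervalIntegral.sum_integral_adjacent_intervals (μ := volume)
    (f := fun x => F ⌊(B : ℝ) * Int.fract x⌋₊ * g (B * x)) (a := fun a : ℕ => (a : ℝ) / B) (n := B) (by
      intro a ha
      have h1 : IntervalIntegrable (fun x => F a * g (B * x)) volume ((a : ℝ) / B) (((a + 1 : ℕ) : ℝ) / B) :=
        (hint _ _).const_mul _
      refine h1.congr_ae ?_
      have hae : ∀ᵐ x : ℝ, x ≠ ((a + 1 : ℕ) : ℝ) / B := by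
        simp [ae_iff, measure_singleton]
      rw [Filter.EventuallyEq, ae_restrict_iff' measurableSet_uIoc]
      filter_upwards [hae] with x hx hx2
      rw [uIoc_of_le (hle a)] at hx2
      exact (hpiece a ha x ⟨hx2.1, lt_of_le_of_ne hx2.2 hx⟩).symm)
  simp only [Nat.cast_zero, zero_div, div_self hB0.ne'] at hsum
  rw [← hsum, Finset.sum_div, Finset.sum_mul]
  refine Finset.sum_congr rfl fun a ha => ?_
  rw [intervalIntegral.integral_congr_Ioo_of_le (hle a) (hpiece a (Finset.mem_range.1 ha)),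
    intervalIntegral.integral_const_mul]
  have h5 : ∫ x in ((a : ℝ) / B)..(((a + 1 : ℕ) : ℝ) / B), g (B * x) = (B : ℝ)⁻¹ * ∫ x in (0 : ℝ)..1, g x := by
    rw [intervalIntegral.integral_comp_mul_left (f := g) hB0.ne']
    have h6 : (B : ℝ) * (a / B) = a := by field_simp
    have h7 : (B : ℝ) * (((a + 1 : ℕ) : ℝ) / B) = a + 1 := by push_cast; field_simp
    rw [h6, h7]
    have h8 := hgp.intervalIntegral_add_eq a 0
    rw [zero_add] at h8
    rw [h8, smul_eq_mul]
  rw [h5]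
  field_simp

theorem abs_psi_le (r a : ℕ) : |psi r a| ≤ 1 := by
  unfold psi
  split_ifs with h1 h2 h3
  · simp
  · have : (1 : ℝ) ≤ r := by exact_mod_cast Nat.one_le_iff_ne_zero.2 h1
    rw [abs_of_nonneg (by positivity), div_le_one (by linarith)]
    exact this
  · simp
  · simp

theorem sum_psi {b r : ℕ} (h1 : 1 ≤ r) (h2 : r < b) : ∑ a ∈ Finset.range b, psi r a = 0 := by
  have hr : (r : ℝ) ≠ 0 := by exact_mod_cast (show r ≠ 0 by omega)
  obtain ⟨c, rfl⟩ : ∃ c, b = r + 1 + c := ⟨b - (r + 1), by omega⟩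
  rw [Finset.sum_range_add, Finset.sum_range_succ]
  have e1 : ∑ a ∈ Finset.range r, psi r a = 1 := by
    rw [Finset.sum_congr rfl (g := fun _ => (1 : ℝ) / r)
      (fun a ha => by simp [psi, Finset.mem_range.1 ha, show r ≠ 0 by omega])]
    simp
    field_simp
  have e2 : psi r r = -1 := by simp [psi, show r ≠ 0 by omega]
  have e3 : ∑ x ∈ Finset.range c, psi r (r + 1 + x) = 0 :=
    Finset.sum_eq_zero fun x _ => by
      simp [psi, show r ≠ 0 by omega, show ¬ r + 1 + x < r by omega, show r + 1 + x ≠ r by omega]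
  rw [e1, e2, e3]
  norm_num

theorem sum_psi_mul_lt {b r r' : ℕ} (h1 : 1 ≤ r) (h : r < r') (h2 : r' < b) :
    ∑ a ∈ Finset.range b, psi r a * psi r' a = 0 := by
  have hr : (r' : ℝ) ≠ 0 := by exact_mod_cast (show r' ≠ 0 by omega)
  have : ∀ a ∈ Finset.range b, psi r a * psi r' a = psi r a * (1 / r') := by
    intro a _
    by_cases ha : a < r'
    · simp [psi, ha, show r' ≠ 0 by omega]
    · have : psi r a = 0 := by
        simp [psi, show r ≠ 0 by omega, show ¬ a < r by omega, show a ≠ r by omega]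
      rw [this]
      simp
  rw [Finset.sum_congr rfl this, ← Finset.sum_mul, sum_psi h1 (by omega), zero_mul]

theorem sum_psi_sq {b r : ℕ} (h1 : 1 ≤ r) (h2 : r < b) :
    ∑ a ∈ Finset.range b, psi r a * psi r a = 1 + 1 / r := by
  have hr : (r : ℝ) ≠ 0 := by exact_mod_cast (show r ≠ 0 by omega)
  obtain ⟨c, rfl⟩ : ∃ c, b = r + 1 + c := ⟨b - (r + 1), by omega⟩
  rw [Finset.sum_range_add, Finset.sum_range_succ]
  have e1 : ∑ a ∈ Finset.range r, psi r a * psi r a = 1 / r := by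
    rw [Finset.sum_congr rfl (g := fun _ => (1 : ℝ) / r * (1 / r))
      (fun a ha => by simp [psi, Finset.mem_range.1 ha, show r ≠ 0 by omega])]
    simp
    field_simp
  have e2 : psi r r = -1 := by simp [psi, show r ≠ 0 by omega]
  have e3 : ∑ x ∈ Finset.range c, psi r (r + 1 + x) * psi r (r + 1 + x) = 0 :=
    Finset.sum_eq_zero fun x _ => by
      simp [psi, show r ≠ 0 by omega, show ¬ r + 1 + x < r by omega, show r + 1 + x ≠ r by omega]
  rw [e1, e2, e3]
  ring

theorem sum_psi_mul {b r r' : ℕ} (h1 : 1 ≤ r) (h2 : r < b) (h1' : 1 ≤ r') (h2' : r' < b) :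
    ∑ a ∈ Finset.range b, psi r a * psi r' a = if r = r' then 1 + 1 / (r : ℝ) else 0 := by
  split_ifs with h
  · subst h
    exact sum_psi_sq h1 h2
  · rcases Nat.lt_or_ge r r' with h3 | h3
    · exact sum_psi_mul_lt h1 h3 h2'
    · rw [← sum_psi_mul_lt h1' (show r' < r by omega) h2]
      exact Finset.sum_congr rfl fun a _ => mul_comm _ _

theorem measurable_nat {B : ℕ} (F : ℕ → ℝ) (s : ℝ) : Measurable fun x : ℝ => F ⌊(B : ℝ) * Int.fract (s * x)⌋₊ := by
  have h1 : Measurable fun x : ℝ => ⌊(B : ℝ) * Int.fract (s * x)⌋₊ :=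
    Nat.measurable_floor.comp ((measurable_fract.comp (measurable_const_mul s)).const_mul _)
  exact (measurable_from_nat (f := F)).comp h1

theorem digit_int {p : ℕ} (hp : 1 ≤ p) (x : ℝ) : ⌊(p : ℝ) * Int.fract x⌋₊ = (⌊(p : ℝ) * x⌋ % p).toNat := by
  have hp0 : (0 : ℝ) < p := by exact_mod_cast hp
  have h1 : ⌊(p : ℝ) * Int.fract x⌋ = ⌊(p : ℝ) * x⌋ - p * ⌊x⌋ := by
    have : (p : ℝ) * Int.fract x = p * x - ((p * ⌊x⌋ : ℤ) : ℝ) := by
      rw [Int.fract]
      push_cast
      ring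
    rw [this, Int.floor_sub_intCast]
  have h2 : (0 : ℤ) ≤ ⌊(p : ℝ) * Int.fract x⌋ := Int.floor_nonneg.2 (mul_nonneg hp0.le (Int.fract_nonneg x))
  have h3 : ⌊(p : ℝ) * Int.fract x⌋ < (p : ℤ) := by
    rw [Int.floor_lt]
    push_cast
    have := Int.fract_lt_one x
    nlinarith
  have h4 : ⌊(p : ℝ) * x⌋ % (p : ℤ) = ⌊(p : ℝ) * Int.fract x⌋ := by
    rw [← Int.emod_eq_of_lt h2 h3, h1, Int.sub_mul_emod_self_left]
  rw [h4]
  rfl

theorem sum_shift {p : ℕ} (hp : 1 ≤ p) (F : ℕ → ℝ) (x : ℝ) :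
    ∑ j ∈ Finset.range p, F ⌊(p : ℝ) * Int.fract (x + j / p)⌋₊ = ∑ a ∈ Finset.range p, F a := by
  have hp0 : (p : ℝ) ≠ 0 := by exact_mod_cast (show p ≠ 0 by omega)
  have hp1 : (0 : ℤ) < p := by exact_mod_cast hp
  have e : ∀ j : ℕ, ⌊(p : ℝ) * Int.fract (x + j / p)⌋₊ = ((⌊(p : ℝ) * x⌋ + j) % p).toNat := by
    intro j
    rw [digit_int hp]
    congr 2
    rw [mul_add, mul_div_cancel₀ _ hp0, Int.floor_add_natCast]
  simp only [e]
  set n : ℤ := ⌊(p : ℝ) * x⌋
  have hmaps : ∀ j ∈ Finset.range p, ((n + j) % p).toNat ∈ Finset.range p := by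
    intro j _
    rw [Finset.mem_range]
    have h1 := Int.emod_nonneg (n + j) hp1.ne'
    have h2 := Int.emod_lt_of_pos (n + j) hp1
    omega
  have hinj : Set.InjOn (fun j : ℕ => ((n + j) % p).toNat) (Finset.range p : Set ℕ) := by
    intro j hj j' hj' h
    simp only [Finset.coe_range, Set.mem_Iio] at hj hj'
    have h1 := Int.emod_nonneg (n + j) hp1.ne'
    have h2 := Int.emod_nonneg (n + j') hp1.ne'
    have h3 : (n + j) % p = (n + j') % p := by
      simp only at h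
      omega
    have h4 : (p : ℤ) ∣ (n + j) - (n + j') := Int.dvd_of_emod_eq_zero (Int.emod_eq_emod_iff_emod_sub_eq_zero.1 h3)
    have h5 : (p : ℤ) ∣ (j : ℤ) - j' := by
      have : (n + j) - (n + j') = (j : ℤ) - j' := by ring
      rwa [this] at h4
    obtain ⟨c, hc⟩ := h5
    have h6 : c = 0 := by
      by_contra h0
      rcases lt_or_gt_of_ne h0 with h7 | h7
      · have : (p : ℤ) * c ≤ p * (-1) := mul_le_mul_of_nonneg_left (by omega) hp1.le
        omega
      · have : (p : ℤ) * 1 ≤ p * c := mul_le_mul_of_nonneg_left (by omega) hp1.le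
        omega
    rw [h6] at hc
    omega
  exact Finset.sum_nbij (fun j : ℕ => ((n + j) % p).toNat) hmaps hinj
    (Finset.surjOn_of_injOn_of_card_le _ hmaps hinj (le_refl _)) (fun _ _ => rfl)

/-- the part of `fb` after the first digit -/
noncomputable def R (t k i : ℕ) (y : ℝ) : ℝ := if t = 0 then 1 else haar k i y

theorem fb_eq (b : ℕ) (q : ℕ × ℕ × ℕ × ℕ) (x : ℝ) :
    fb b q x = psi q.1 ⌊(b : ℝ) * Int.fract x⌋₊ * R q.2.1 q.2.2.1 q.2.2.2 (b * x) := rfl

theorem R_per (t k i : ℕ) : Function.Periodic (R t k i) 1 := by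
  intro y
  unfold R
  split_ifs
  · rfl
  · exact Pool.Agent.Helper5.LD.haar_per k i y

theorem R_meas (t k i : ℕ) : Measurable (R t k i) := by
  unfold R
  split_ifs
  · exact measurable_const
  · exact Pool.Agent.Helper5.LD.haar_meas k i

theorem R_bdd (t k i : ℕ) (y : ℝ) : |R t k i y| ≤ 1 := by
  unfold R
  split_ifs
  · simp
  · exact Pool.Agent.Helper5.LD.haar_abs k i y

theorem mem_Ib {b K : ℕ} {q : ℕ × ℕ × ℕ × ℕ} (hq : q ∈ Ib b K) : 1 ≤ q.1 ∧ q.1 < b ∧
    ((q.2.1 = 0 ∧ q.2.2.1 = 0 ∧ q.2.2.2 = 0) ∨ (q.2.1 = 1 ∧ q.2.2.2 < 2 ^ q.2.2.1)) := by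
  unfold Ib at hq
  simp only [Finset.mem_filter, Finset.mem_product, Finset.mem_range] at hq
  obtain ⟨⟨h1, h2, h3, h4⟩, h5, h6⟩ := hq
  exact ⟨h5, h1, h6⟩

theorem RR {t k i t' k' i' : ℕ} (h : (t = 0 ∧ k = 0 ∧ i = 0) ∨ (t = 1 ∧ i < 2 ^ k))
    (h' : (t' = 0 ∧ k' = 0 ∧ i' = 0) ∨ (t' = 1 ∧ i' < 2 ^ k')) :
    ∫ y in (0 : ℝ)..1, R t k i y * R t' k' i' y = if t = t' ∧ k = k' ∧ i = i' then (1 / 2) ^ k else 0 := by
  rcases h with ⟨rfl, rfl, rfl⟩ | ⟨rfl, hi⟩ <;> rcases h' with ⟨rfl, rfl, rfl⟩ | ⟨rfl, hi'⟩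
  · simp [R]
  · simp only [R, if_true, one_ne_zero, if_false, one_mul, zero_ne_one, false_and]
    exact Pool.Agent.Helper5.LD.int_haar k' i'
  · simp only [R, if_true, one_ne_zero, if_false, mul_one, false_and]
    exact Pool.Agent.Helper5.LD.int_haar k i
  · simp only [R, one_ne_zero, if_false, true_and]
    rcases lt_trichotomy k k' with hk | hk | hk
    · rw [Pool.Agent.Helper5.LD.int_pair_diff hk, if_neg (by omega)]
    · subst hk
      rw [Pool.Agent.Helper5.LD.int_pair_same k i i' hi]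
      simp
    · rw [if_neg (by omega)]
      have h1 : ∫ y in (0 : ℝ)..1, haar k i y * haar k' i' y = ∫ y in (0 : ℝ)..1, haar k' i' y * haar k i y :=
        intervalIntegral.integral_congr fun y _ => mul_comm _ _
      rw [h1, Pool.Agent.Helper5.LD.int_pair_diff hk i' i]

/-- SYb2: orthogonality -/
theorem fb_orth {b K : ℕ} (hb : 2 ≤ b) (hK : 1 ≤ K) {q q' : ℕ × ℕ × ℕ × ℕ} (hq : q ∈ Ib b K) (hq' : q' ∈ Ib b K) :
    ∫ t in (0 : ℝ)..1, fb b q t * fb b q' t = if q = q' then sysv b q else 0 := by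
  obtain ⟨h1, h2, h3⟩ := mem_Ib hq
  obtain ⟨h1', h2', h3'⟩ := mem_Ib hq'
  obtain ⟨r, t, k, i⟩ := q
  obtain ⟨r', t', k', i'⟩ := q'
  simp only at h1 h2 h3 h1' h2' h3'
  have h := digit (show 1 ≤ b by omega) (fun a => psi r a * psi r' a) (g := fun y => R t k i y * R t' k' i' y)
    ((R_meas _ _ _).mul (R_meas _ _ _)) (C := 1)
    (fun x => by
      rw [abs_mul]
      exact mul_le_one₀ (R_bdd _ _ _ _) (abs_nonneg _) (R_bdd _ _ _ _))
    (fun x => by
      simp only
      rw [R_per t k i x, R_per t' k' i' x])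
  have e : ∫ x in (0 : ℝ)..1, fb b (r, t, k, i) x * fb b (r', t', k', i') x =
      (∑ a ∈ Finset.range b, psi r a * psi r' a) / b * ∫ y in (0 : ℝ)..1, R t k i y * R t' k' i' y := by
    rw [← h]
    refine intervalIntegral.integral_congr fun y _ => ?_
    simp only [fb_eq]
    ring
  rw [e, sum_psi_mul h1 h2 h1' h2', RR h3 h3']
  by_cases hr0 : r = r'
  swap
  · have hne : ¬ ((r, t, k, i) = (r', t', k', i')) := fun h0 => hr0 (congrArg Prod.fst h0)
    rw [if_neg hr0, zero_div, zero_mul, if_neg hne]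
  subst hr0
  rw [if_pos rfl]
  by_cases hh : t = t' ∧ k = k' ∧ i = i'
  · obtain ⟨rfl, rfl, rfl⟩ := hh
    rw [if_pos ⟨rfl, rfl, rfl⟩, if_pos rfl]
    unfold sysv
    rw [if_neg (by omega)]
  · rw [if_neg hh, mul_zero, if_neg]
    rintro h0
    simp only [Prod.mk.injEq, true_and] at h0
    exact hh h0

/-- SYb2: the mean over the first digit is 0 -/
theorem fb_ker {b : ℕ} (hb : 2 ≤ b) {q : ℕ × ℕ × ℕ × ℕ} (hq1 : 1 ≤ q.1) (hqb : q.1 < b) (x : ℝ) :
    ∑ j ∈ Finset.range b, fb b q (x + j / b) = 0 := by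
  have hb0 : (b : ℝ) ≠ 0 := by exact_mod_cast (show b ≠ 0 by omega)
  have h : ∀ j ∈ Finset.range b, fb b q (x + j / b) =
      psi q.1 ⌊(b : ℝ) * Int.fract (x + j / b)⌋₊ * R q.2.1 q.2.2.1 q.2.2.2 (b * x) := by
    intro j _
    rw [fb_eq]
    congr 1
    have : (b : ℝ) * (x + j / b) = b * x + j * 1 := by field_simp
    rw [this]
    exact (R_per q.2.1 q.2.2.1 q.2.2.2).nat_mul j (b * x)
  rw [Finset.sum_congr rfl h, ← Finset.sum_mul, sum_shift (by omega), sum_psi hq1 hqb, zero_mul]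

end Pool.Agent.Helper81.LD4
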